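import Pool.Agent.Lib.MP_1ad228_ntN.FM_Fin
import Pool.Agent.Lib.MP_1ad228_ntN.MN_Bad
import Pool.Agent.Lib.MP_1ad228_ntN.MN_Pos

/-!
# 100 percent of the everywhere locally soluble intersections of two quadrics in `P^n`, `n ≥ 5`, over any number field have a rational point

Pairs of quadratic forms in `n + 1` variables over the ring of integers of a number field `K` are ordered by the largest absolute value of the conjugates of the coefficients. Among the pairs of height
at most `A` those which are soluble over all completions of `K` but have no common zero `x ≠ 0` over the ring of integers with `|y| ^ (n - 3) ≤ M * A ^ 2` for all conjugates `y` of all coordinates form a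
proportion of at most `ε` of the smooth everywhere locally soluble ones, for `M` and `A` large in terms of `ε` (and `K`, `n`).
-/

namespace Pool.Agent.Results.MP_219881_nt.HundredPercentNumberFields

open Pool.Agent.Lib.MP_1ad228_ntN
open scoped NumberField

theorem result (K : Type) [Field K] [NumberField K] (n : ℕ) (hn : 5 ≤ n) (ε : ℝ) (hε : 0 < ε) :
    ∃ M A0 : ℕ, ∀ A : ℕ, A0 ≤ A →
    (({f | (∀ k, f k ∈ Forms K n 2 A) ∧ LocSol f ∧
        ¬ SmallZero (n - 3) ((M : ℝ) * (A : ℝ) ^ 2) f} :
      Set (Fin 2 → MvPolynomial (Fin (n + 1)) (𝓞 K))).ncard : ℝ)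
      ≤ ε * (({f | (∀ k, f k ∈ Forms K n 2 A) ∧ SmoothCI f ∧ LocSol f} :
        Set (Fin 2 → MvPolynomial (Fin (n + 1)) (𝓞 K))).ncard : ℝ) := by
  have hs : ∑ _i : Fin 2, 2 = 4 := by simp
  have h2 : 2 * 2 < n * (n + 1 - ∑ _i : Fin 2, 2) := by
    rw [hs]
    have h3 : n * 2 ≤ n * (n + 1 - 4) := Nat.mul_le_mul_left n (by omega)
    omega
  have h := final1 K n (fun _ : Fin 2 => 2) (fun ε hε => nonSm K n _ (fun _ => by omega) ε hε)
    (mainN K (by omega) n (by omega) (fun _ : Fin 2 => 2) (fun _ => le_rfl) (by rw [hs]; omega) h2)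
    (posN K (by omega) n (by omega) (fun _ : Fin 2 => 2) (fun _ => le_rfl) (by rw [hs]; omega) h2)
    ε hε
  have h3 : n + 1 - ∑ _i : Fin 2, 2 = n - 3 := by
    rw [hs]
    omega
  rw [h3] at h
  exact h

end Pool.Agent.Results.MP_219881_nt.HundredPercentNumberFields
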